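import Pool.Agent.Lib_helper25.PV.Defs
import Pool.Agent.Lib_helper41.PV.AvgExists
import Pool.Agent.Lib_helper89.PV.B4
import Pool.Agent.Lib_helper31.PV.B5a

/-! Project PV (MP_b08f5f_an): the rotating frames. -/

set_option autoImplicit false

namespace Pool.Agent.Lib_helper25.PV

open MeasureTheory Filter Topology Set
open scoped ComplexConjugate

noncomputable section

/-! ### elementary facts -/

theorem continuous_centre {N : ℕ} : Continuous (centre (N := N)) := by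
  unfold centre
  fun_prop

theorem continuous_inertia {N : ℕ} : Continuous (inertia (N := N)) := by
  unfold inertia
  fun_prop

theorem continuous_seen {N : ℕ} : Continuous fun p : ℝ × Conf N => seen p.1 p.2 := by
  have := continuous_centre (N := N)
  unfold seen
  fun_prop

theorem continuous_seen_const {N : ℕ} (a : ℝ) : Continuous fun z : Conf N => seen a z :=
  continuous_seen.comp (continuous_const.prodMk continuous_id)

theorem continuous_orbit {N : ℕ} (V : VFlow N) (c θ : ℝ) (z : Conf N) :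
    Continuous fun t : ℝ => seen (c * t + θ) (V.φ t z) :=
  continuous_seen.comp ((by fun_prop : Continuous fun t : ℝ => c * t + θ).prodMk (V.cont z))

theorem norm_le_sqrt_inertia {N : ℕ} (z : Conf N) (i : Fin N) : ‖z i‖ ≤ √(inertia z) := by
  apply Real.le_sqrt_of_sq_le
  exact Finset.single_le_sum (f := fun i => ‖z i‖ ^ 2) (fun i _ => by positivity)
    (Finset.mem_univ i)

theorem norm_centre_le {N : ℕ} (z : Conf N) : ‖centre z‖ ≤ √(inertia z) := by
  unfold centre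
  rcases Nat.eq_zero_or_pos N with h | h
  · subst h
    simp
  · have hN : (0 : ℝ) < N := by exact_mod_cast h
    rw [norm_div, Complex.norm_natCast, div_le_iff₀ hN]
    calc ‖∑ i, z i‖ ≤ ∑ i : Fin N, √(inertia z) :=
          norm_sum_le_of_le _ (fun i _ => norm_le_sqrt_inertia z i)
      _ = √(inertia z) * N := by simp [mul_comm]

theorem norm_exp_I (x : ℝ) : ‖Complex.exp (x * Complex.I)‖ = 1 := Complex.norm_exp_ofReal_mul_I x

theorem norm_seen_le {N : ℕ} (a : ℝ) (z : Conf N) (i : Fin N) :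
    ‖seen a z i‖ ≤ 2 * √(inertia z) := by
  unfold seen
  rw [norm_mul, norm_exp_I, one_mul]
  refine (norm_sub_le _ _).trans ?_
  linarith [norm_le_sqrt_inertia z i, norm_centre_le z]

theorem norm_orbit_le {N : ℕ} (V : VFlow N) (a t : ℝ) (z : Conf N) (i : Fin N) :
    ‖seen a (V.φ t z) i‖ ≤ 2 * √(inertia z) := by
  rw [← V.inert t z]
  exact norm_seen_le _ _ _

theorem mono_apply {ι : Type*} [Fintype ι] (a b : ι → ℕ) (w : ι → ℂ) :
    mono a b w = ∏ i, (w i ^ a i * conj (w i) ^ b i) := rfl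

/-- the weight of a monomial -/
def wt {ι : Type*} [Fintype ι] (a b : ι → ℕ) : ℝ := ((∑ i, a i : ℕ) : ℝ) - ((∑ i, b i : ℕ) : ℝ)

theorem mono_rot {ι : Type*} [Fintype ι] (a b : ι → ℕ) (x : ℝ) (w : ι → ℂ) :
    mono a b (fun i => Complex.exp (x * Complex.I) * w i) =
      Complex.exp ((wt a b : ℝ) * x * Complex.I) * mono a b w := by
  have h1 : conj (Complex.exp (x * Complex.I)) = Complex.exp (-(x * Complex.I)) := by
    rw [← Complex.exp_conj, map_mul, Complex.conj_ofReal, Complex.conj_I, mul_neg]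
  have h2 : ∀ i, (Complex.exp (x * Complex.I) * w i) ^ a i *
      conj (Complex.exp (x * Complex.I) * w i) ^ b i =
      Complex.exp (((a i : ℂ) - (b i : ℂ)) * (x * Complex.I)) * (w i ^ a i * conj (w i) ^ b i) := by
    intro i
    rw [map_mul, h1, mul_pow, mul_pow, ← Complex.exp_nat_mul, ← Complex.exp_nat_mul,
      show ((a i : ℂ) - (b i : ℂ)) * (x * Complex.I) =
        (a i : ℂ) * (x * Complex.I) + (b i : ℂ) * -(x * Complex.I) by ring, Complex.exp_add]
    ring
  rw [mono_apply, mono_apply, Finset.prod_congr rfl (fun i _ => h2 i), Finset.prod_mul_distrib,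
    ← Complex.exp_sum, ← Finset.sum_mul, Finset.sum_sub_distrib]
  congr 2
  unfold wt
  push_cast
  ring

theorem mono_seen {N : ℕ} (a b : Fin N → ℕ) (x : ℝ) (z : Conf N) :
    mono a b (seen x z) = Complex.exp ((wt a b : ℝ) * x * Complex.I) * mono a b (seen 0 z) := by
  rw [← mono_rot]
  congr 1
  funext i
  simp [seen]

/-- all points turned by the angle `a` about the origin -/
def tw {N : ℕ} (a : ℝ) (z : Conf N) : Conf N := fun i => Complex.exp (a * Complex.I) * z i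

theorem continuous_tw {N : ℕ} : Continuous fun p : ℝ × Conf N => tw p.1 p.2 := by
  unfold tw
  fun_prop

theorem continuous_orbit_tw {N : ℕ} (V : VFlow N) (c θ : ℝ) (z : Conf N) :
    Continuous fun t : ℝ => tw (c * t + θ) (V.φ t z) :=
  continuous_tw.comp ((by fun_prop : Continuous fun t : ℝ => c * t + θ).prodMk (V.cont z))

theorem norm_tw {N : ℕ} (a : ℝ) (z : Conf N) (i : Fin N) : ‖tw a z i‖ = ‖z i‖ := by
  unfold tw
  rw [norm_mul, norm_exp_I, one_mul]

theorem norm_orbit_tw_le {N : ℕ} (V : VFlow N) (a t : ℝ) (z : Conf N) (i : Fin N) :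
    ‖tw a (V.φ t z) i‖ ≤ √(inertia z) := by
  rw [norm_tw, ← V.inert t z]
  exact norm_le_sqrt_inertia _ _

theorem mono_tw {N : ℕ} (a b : Fin N → ℕ) (x : ℝ) (z : Conf N) :
    mono a b (tw x z) = Complex.exp ((wt a b : ℝ) * x * Complex.I) * mono a b z :=
  mono_rot a b x z

theorem tw_tw {N : ℕ} (a b : ℝ) (z : Conf N) : tw a (tw b z) = tw (a + b) z := by
  funext i
  unfold tw
  rw [← mul_assoc, ← Complex.exp_add]
  congr 2
  push_cast
  ring

/-- time averages in the frame rotating with speed `c`, as linear functionals -/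
def lam {N : ℕ} (V : VFlow N) (c : ℝ) (z : Conf N) (T : ℝ) : C(Fin N → ℂ, ℂ) →ₗ[ℂ] ℂ where
  toFun Ψ := (T : ℂ)⁻¹ * ∫ t in (0 : ℝ)..T, Ψ (tw (c * t) (V.φ t z))
  map_add' Ψ Ψ' := by
    have hc : Continuous fun t : ℝ => tw (c * t) (V.φ t z) := by
      simpa using continuous_orbit_tw V c 0 z
    have h1 : IntervalIntegrable (fun t : ℝ => Ψ (tw (c * t) (V.φ t z))) volume 0 T :=
      (Ψ.continuous.comp hc).intervalIntegrable _ _
    have h2 : IntervalIntegrable (fun t : ℝ => Ψ' (tw (c * t) (V.φ t z))) volume 0 T :=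
      (Ψ'.continuous.comp hc).intervalIntegrable _ _
    simp only [ContinuousMap.add_apply]
    rw [intervalIntegral.integral_add h1 h2]
    ring
  map_smul' r Ψ := by
    simp only [ContinuousMap.smul_apply, smul_eq_mul, RingHom.id_apply]
    rw [intervalIntegral.integral_const_mul]
    ring

theorem lam_apply {N : ℕ} (V : VFlow N) (c : ℝ) (z : Conf N) (T : ℝ) (Ψ : C(Fin N → ℂ, ℂ)) :
    lam V c z T Ψ = (T : ℂ)⁻¹ * ∫ t in (0 : ℝ)..T, Ψ (tw (c * t) (V.φ t z)) := rfl

theorem lam_bound {N : ℕ} (V : VFlow N) (c : ℝ) (z : Conf N) :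
    ∀ T > 0, ∀ (Ψ : C(Fin N → ℂ, ℂ)) (M : ℝ),
      (∀ w, (∀ i, ‖w i‖ ≤ √(inertia z)) → ‖Ψ w‖ ≤ M) → ‖lam V c z T Ψ‖ ≤ M := by
  intro T hT Ψ M hM
  rw [lam_apply, norm_mul, norm_inv, Complex.norm_real, Real.norm_of_nonneg hT.le]
  have h1 : ‖∫ t in (0 : ℝ)..T, Ψ (tw (c * t) (V.φ t z))‖ ≤ M * |T - 0| :=
    intervalIntegral.norm_integral_le_of_norm_le_const
      (fun t _ => hM _ (fun i => norm_orbit_tw_le V _ t z i))
  rw [sub_zero, abs_of_pos hT] at h1
  calc T⁻¹ * ‖∫ t in (0 : ℝ)..T, Ψ (tw (c * t) (V.φ t z))‖ ≤ T⁻¹ * (M * T) := by gcongr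
    _ = M := by field_simp

theorem lam_mono {N : ℕ} (V : VFlow N) (c : ℝ) (z : Conf N) (T : ℝ) (a b : Fin N → ℕ) :
    lam V c z T (mono a b) = avg V (c * wt a b) (fun z => mono a b z) T z := by
  rw [lam_apply]
  unfold avg
  congr 2
  funext t
  rw [mono_tw]
  congr 2
  push_cast
  ring

/-- a locally bounded measurable function restricted to `inertia ≤ R` is in `L²` -/
theorem memLp_cut {N : ℕ} {g : Conf N → ℂ} (hg : Measurable g) {R C : ℝ}
    (hC : ∀ z, inertia z ≤ R → ‖g z‖ ≤ C) :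
    MemLp ({z : Conf N | inertia z ≤ R}.indicator g) 2 volume := by
  have hcl : IsClosed {z : Conf N | inertia z ≤ R} := isClosed_le continuous_inertia continuous_const
  have hsub : {z : Conf N | inertia z ≤ R} ⊆ Metric.closedBall 0 (√R) := by
    intro z hz
    rw [mem_closedBall_zero_iff, pi_norm_le_iff_of_nonneg (Real.sqrt_nonneg _)]
    intro i
    exact (norm_le_sqrt_inertia z i).trans (Real.sqrt_le_sqrt hz)
  have hfin : volume {z : Conf N | inertia z ≤ R} ≠ ⊤ :=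
    ((measure_mono hsub).trans_lt (measure_closedBall_lt_top)).ne
  rw [memLp_indicator_iff_restrict hcl.measurableSet]
  have : IsFiniteMeasure (volume.restrict {z : Conf N | inertia z ≤ R}) :=
    ⟨by rw [Measure.restrict_apply_univ]; exact hfin.lt_top⟩
  refine MemLp.of_bound hg.aestronglyMeasurable C ?_
  rw [ae_restrict_iff' hcl.measurableSet]
  exact ae_of_all _ hC

/-- a locally bounded eigenfunction with frequency `≠ 0` vanishes -/
theorem VFlow.no_eigen_loc {N : ℕ} (V : VFlow N) {κ : ℝ} (hκ : κ ≠ 0) {g : Conf N → ℂ}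
    (hg : Measurable g) (hb : ∀ R : ℝ, ∃ C, ∀ z, inertia z ≤ R → ‖g z‖ ≤ C)
    (he : ∀ s : ℝ, ∀ᵐ z, g (V.φ s z) = Complex.exp (-(κ * s * Complex.I)) * g z) :
    g =ᵐ[volume] 0 := by
  have key : ∀ n : ℕ, {z : Conf N | inertia z ≤ n}.indicator g =ᵐ[volume] 0 := by
    intro n
    obtain ⟨C, hC⟩ := hb n
    refine V.no_eigen (κ := -κ) (neg_ne_zero.2 hκ) (memLp_cut hg hC) (fun s => ?_)
    filter_upwards [he s] with z hz
    by_cases h : inertia z ≤ n
    · have h' : inertia (V.φ s z) ≤ n := by rw [V.inert]; exact h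
      rw [indicator_of_mem (show V.φ s z ∈ {z : Conf N | inertia z ≤ n} from h'),
        indicator_of_mem (show z ∈ {z : Conf N | inertia z ≤ n} from h), hz]
      congr 2
      push_cast
      ring
    · have h' : ¬ inertia (V.φ s z) ≤ n := by rw [V.inert]; exact h
      rw [indicator_of_notMem (show V.φ s z ∉ {z : Conf N | inertia z ≤ n} from h'),
        indicator_of_notMem (show z ∉ {z : Conf N | inertia z ≤ n} from h), mul_zero]
  filter_upwards [ae_all_iff.2 key] with z hz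
  obtain ⟨n, hn⟩ := exists_nat_ge (inertia z)
  have := hz n
  rwa [indicator_of_mem (show z ∈ {z : Conf N | inertia z ≤ n} from hn)] at this

theorem mono_bound {N : ℕ} (a b : Fin N → ℕ) (R : ℝ) :
    ∃ C, ∀ z : Conf N, inertia z ≤ R → ‖mono a b z‖ ≤ C := by
  obtain ⟨C, hC⟩ := (isCompact_closedBall (0 : Fin N → ℂ) (√R)).exists_bound_of_continuousOn
    (mono a b).continuous.continuousOn
  refine ⟨C, fun z hz => hC _ ?_⟩
  rw [mem_closedBall_zero_iff, pi_norm_le_iff_of_nonneg (by positivity)]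
  intro i
  exact (norm_le_sqrt_inertia z i).trans (by gcongr)

/-- the moments in the rotating frame converge; those with a weight vanish if `c ≠ 0`. -/
theorem VFlow.moments {N : ℕ} (V : VFlow N) (c : ℝ) (a b : Fin N → ℕ) :
    ∀ᵐ z : Conf N, (∃ l, Tendsto (fun T => lam V c z T (mono a b)) atTop (𝓝 l)) ∧
      (c ≠ 0 → ∑ i, a i ≠ ∑ i, b i → Tendsto (fun T => lam V c z T (mono a b)) atTop (𝓝 0)) := by
  have hmeas : Measurable fun z : Conf N => mono a b z := (mono a b).continuous.measurable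
  obtain ⟨g, hg, hgb, hlim, hinv⟩ := V.avg_exists (c * wt a b) hmeas (mono_bound a b)
  have hgb' : ∀ R : ℝ, ∃ C, ∀ z, inertia z ≤ R → ‖g z‖ ≤ C := fun R => by
    obtain ⟨C, hC⟩ := mono_bound a b R
    exact ⟨C, hgb R C hC⟩
  have hzero : c ≠ 0 → ∑ i, a i ≠ ∑ i, b i → g =ᵐ[volume] 0 := by
    intro hc hab
    refine V.no_eigen_loc (κ := c * wt a b) (mul_ne_zero hc ?_) hg hgb' hinv
    unfold wt
    rw [sub_ne_zero]
    exact_mod_cast hab
  by_cases h : c ≠ 0 ∧ ∑ i, a i ≠ ∑ i, b i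
  · filter_upwards [hlim, hzero h.1 h.2] with z hz hz0
    rw [hz0] at hz
    simp only [lam_mono]
    exact ⟨⟨_, hz⟩, fun _ _ => hz⟩
  · filter_upwards [hlim] with z hz
    simp only [lam_mono]
    exact ⟨⟨_, hz⟩, fun h1 h2 => absurd ⟨h1, h2⟩ h⟩

theorem lam_ofReal {N : ℕ} (V : VFlow N) (c : ℝ) (z : Conf N) (T θ : ℝ) {Ψ : Conf N → ℝ}
    (hΨ : Continuous Ψ) :
    lam V c z T ((⟨fun w => (Ψ w : ℂ), by fun_prop⟩ : C(Fin N → ℂ, ℂ)).comp (turnC θ)) =
      ((T⁻¹ * ∫ t in (0 : ℝ)..T, Ψ (tw (c * t + θ) (V.φ t z)) : ℝ) : ℂ) := by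
  rw [lam_apply, Complex.ofReal_mul, Complex.ofReal_inv, ← intervalIntegral.integral_ofReal]
  congr 2
  funext t
  simp only [ContinuousMap.comp_apply, ContinuousMap.coe_mk, turnC]
  congr 2
  funext i
  unfold tw
  rw [← mul_assoc, ← Complex.exp_add]
  congr 2
  push_cast
  ring

theorem VFlow.frames0 {N : ℕ} (V : VFlow N) (c : ℝ) : ∀ᵐ z : Conf N, ∀ Ψ : Conf N → ℝ,
    Continuous Ψ →
    (∀ θ : ℝ, ∃ l : ℝ, Tendsto (fun T : ℝ => T⁻¹ * ∫ t in (0 : ℝ)..T,
      Ψ (tw (c * t + θ) (V.φ t z))) atTop (𝓝 l)) ∧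
    (c ≠ 0 → ∃ l : ℝ, ∀ θ : ℝ, Tendsto (fun T : ℝ => T⁻¹ * ∫ t in (0 : ℝ)..T,
      Ψ (tw (c * t + θ) (V.φ t z))) atTop (𝓝 l)) := by
  have h1 : ∀ᵐ z : Conf N, ∀ a b : Fin N → ℕ,
      (∃ l, Tendsto (fun T => lam V c z T (mono a b)) atTop (𝓝 l)) ∧
      (c ≠ 0 → ∑ i, a i ≠ ∑ i, b i → Tendsto (fun T => lam V c z T (mono a b)) atTop (𝓝 0)) := by
    rw [ae_all_iff]
    intro a
    rw [ae_all_iff]
    exact fun b => V.moments c a b
  filter_upwards [h1] with z hz Ψ hΨ
  have e1 : ∀ θ : ℝ, ∃ l : ℝ, Tendsto (fun T : ℝ => T⁻¹ * ∫ t in (0 : ℝ)..T,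
      Ψ (tw (c * t + θ) (V.φ t z))) atTop (𝓝 l) := by
    intro θ
    obtain ⟨l, hl⟩ := sw_exists (lam V c z) (lam_bound V c z) (fun a b => (hz a b).1)
      ((⟨fun w => (Ψ w : ℂ), by fun_prop⟩ : C(Fin N → ℂ, ℂ)).comp (turnC θ))
    simp only [lam_ofReal V c z _ θ hΨ] at hl
    have h2 := (Complex.continuous_re.tendsto l).comp hl
    simp only [Function.comp_def, Complex.ofReal_re] at h2
    exact ⟨_, h2⟩
  refine ⟨e1, fun hc => ?_⟩
  obtain ⟨l, hl⟩ := e1 0
  refine ⟨l, fun θ => ?_⟩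
  have hm : ∀ a b : Fin N → ℕ, ∑ i, a i ≠ ∑ i, b i →
      Tendsto (fun T => lam V c z T (mono a b)) atTop (𝓝 0) := fun a b h => (hz a b).2 hc h
  have h3 := sw_turn (lam V c z) (lam_bound V c z) hm (⟨fun w => (Ψ w : ℂ), by fun_prop⟩) θ
  have h4 := sw_turn (lam V c z) (lam_bound V c z) hm (⟨fun w => (Ψ w : ℂ), by fun_prop⟩) 0
  have h5 := h3.sub h4
  simp only [sub_sub_sub_cancel_right, sub_zero, lam_ofReal V c z _ _ hΨ] at h5
  have h6 := (Complex.continuous_re.tendsto 0).comp h5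
  simp only [Function.comp_def, ← Complex.ofReal_sub, Complex.ofReal_re, Complex.zero_re] at h6
  have h7 := h6.add hl
  rw [zero_add] at h7
  refine h7.congr (fun T => ?_)
  ring

end

end Pool.Agent.Lib_helper25.PV
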