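import Pool.Agent.Lib_helper25.PV.Defs
import Pool.Agent.Lib_helper52.PV.B1a
import Pool.Agent.Lib_helper57.PV.B1b
import Pool.Agent.Lib_helper68.PV.B2

/-! Project PV (MP_b08f5f_an): the vortex flow exists. -/

set_option autoImplicit false

namespace Pool.Agent.Lib_helper25.PV

/-- the vortex flow exists -/
theorem exists_vflow (N : ℕ) (hN : 1 ≤ N) : Nonempty (VFlow N) := by
  obtain ⟨G, hc, hi⟩ := exists_global N
  exact exists_vflow_of N hN (isOpen_NC N) G hc hi
    (fun t => global_mp N (isOpen_NC N) (vel_contDiffOn N) G t)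

end Pool.Agent.Lib_helper25.PV
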