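import Pool.Agent.Lib_helper25.PV.B5b
import Pool.Agent.Lib_helper59.PV.Erg2

/-! Project PV (MP_b08f5f_an): correlations along almost every orbit. -/

set_option autoImplicit false

namespace Pool.Agent.Lib_helper25.PV

open MeasureTheory Filter Topology Set
open scoped ComplexConjugate

noncomputable section

theorem phi_iterate {N : ℕ} (V : VFlow N) (s : ℝ) (k : ℕ) (z : Conf N) :
    (V.φ s)^[k] z = V.φ (k * s) z := by
  induction k with
  | zero => simp [V.zero]
  | succ k ih =>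
    rw [Function.iterate_succ_apply', ih, ← V.add]
    congr 1
    push_cast
    ring

theorem VFlow.correl {N : ℕ} (V : VFlow N) {f : Conf N → ℂ} (hf : Continuous f) :
    ∀ᵐ z : Conf N, ∀ m : ℕ, 0 < m → ∀ j : ℕ, ∃ l : ℂ, Tendsto (fun n : ℕ =>
      (n : ℂ)⁻¹ * ∑ k ∈ Finset.range n,
        f (V.φ (((k + j : ℕ) : ℝ) / m) z) * conj (f (V.φ ((k : ℝ) / m) z))) atTop (𝓝 l) := by
  rw [ae_all_iff]
  intro m
  by_cases hm : 0 < m
  swap
  · exact ae_of_all _ fun z h => absurd h hm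
  suffices h : ∀ j R : ℕ, ∀ᵐ z : Conf N, inertia z ≤ R → ∃ l : ℂ, Tendsto (fun n : ℕ =>
      (n : ℂ)⁻¹ * ∑ k ∈ Finset.range n,
        f (V.φ (((k + j : ℕ) : ℝ) / m) z) * conj (f (V.φ ((k : ℝ) / m) z))) atTop (𝓝 l) by
    have h1 : ∀ᵐ z : Conf N, ∀ j R : ℕ, inertia z ≤ R → ∃ l : ℂ, Tendsto (fun n : ℕ =>
        (n : ℂ)⁻¹ * ∑ k ∈ Finset.range n,
          f (V.φ (((k + j : ℕ) : ℝ) / m) z) * conj (f (V.φ ((k : ℝ) / m) z))) atTop (𝓝 l) := by
      rw [ae_all_iff]
      intro j
      rw [ae_all_iff]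
      exact h j
    filter_upwards [h1] with z hz _ j
    obtain ⟨R, hR⟩ := exists_nat_ge (inertia z)
    exact hz j R hR
  intro j R
  have hφ : ∀ t, Measurable (V.φ t) := fun t => (V.mp t).measurable
  set F : Conf N → ℂ := fun z => f (V.φ ((j : ℝ) / m) z) * conj (f z) with hF
  have hFm : Measurable F :=
    (hf.measurable.comp (hφ _)).mul (Complex.continuous_conj.measurable.comp hf.measurable)
  obtain ⟨C, hC⟩ : ∃ C, ∀ z : Conf N, inertia z ≤ R → ‖f z‖ ≤ C := by
    obtain ⟨C, hC⟩ := (isCompact_closedBall (0 : Conf N) (√R)).exists_bound_of_continuousOn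
      hf.continuousOn
    refine ⟨C, fun z hz => hC _ ?_⟩
    rw [mem_closedBall_zero_iff, pi_norm_le_iff_of_nonneg (by positivity)]
    intro i
    exact (norm_le_sqrt_inertia z i).trans (Real.sqrt_le_sqrt hz)
  have hFC : ∀ z : Conf N, inertia z ≤ R → ‖F z‖ ≤ C * C := by
    intro z hz
    have h1 : ‖f (V.φ ((j : ℝ) / m) z)‖ ≤ C := hC _ (by rw [V.inert]; exact hz)
    have h2 := hC z hz
    rw [hF]
    simp only [norm_mul, RCLike.norm_conj]
    exact mul_le_mul h1 h2 (norm_nonneg _) ((norm_nonneg _).trans h1)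
  set S : Set (Conf N) := {z | inertia z ≤ R} with hS
  have hSm : MeasurableSet S := (isClosed_le continuous_inertia continuous_const).measurableSet
  have hL2 : MemLp (S.indicator F) 2 volume := memLp_cut hFm hFC
  have hb : ∀ z, ‖S.indicator F z‖ ≤ max (C * C) 0 := by
    intro z
    by_cases h : z ∈ S
    · rw [indicator_of_mem h]
      exact (hFC z h).trans (le_max_left _ _)
    · rw [indicator_of_notMem h, norm_zero]
      exact le_max_right _ _
  obtain ⟨g, -, -, -, hg⟩ := Pool.Agent.PVErg.pointwise (V.mp (1 / (m : ℝ))) (w := 1) (by simp)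
    (hFm.indicator hSm) hb hL2
  filter_upwards [hg] with z hz hzR
  refine ⟨g z, hz.congr fun n => ?_⟩
  unfold Pool.Agent.PVErg.ws
  rw [div_eq_inv_mul]
  congr 1
  refine Finset.sum_congr rfl fun k _ => ?_
  have hk : V.φ (k * (1 / (m : ℝ))) z ∈ S := by
    show inertia _ ≤ _
    rw [V.inert]
    exact hzR
  rw [one_pow, one_mul, phi_iterate, indicator_of_mem hk, hF]
  simp only
  rw [← V.add, show (j : ℝ) / m + k * (1 / (m : ℝ)) = ((k + j : ℕ) : ℝ) / m by push_cast; ring,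
    show (k : ℝ) * (1 / (m : ℝ)) = (k : ℝ) / m by ring]

end

end Pool.Agent.Lib_helper25.PV
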