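import Pool.Agent.Lib_helper25.PV.Background
import Pool.Agent.Lib_helper25.PV.Correl
import Pool.Agent.Lib_helper57.PV.B10B
import Pool.Agent.Lib_helper68.PV.B10D

/-! Project PV (MP_b08f5f_an): all frames but countably many. -/

set_option autoImplicit false

namespace Pool.Agent.Lib_helper25.PV

open MeasureTheory Filter Topology Set
open scoped ComplexConjugate

noncomputable section

/-- the conclusion of the question at `z`, in the frame of speed `c`, for functions of all points -/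
def Good {N : ℕ} (φ : ℝ → Conf N → Conf N) (c : ℝ) (z : Conf N) : Prop :=
  ∀ Ψ : Conf N → ℝ, Continuous Ψ → ∃ l : ℝ, ∀ θ : ℝ,
    Tendsto (fun T : ℝ => T⁻¹ * ∫ t in (0 : ℝ)..T, Ψ (tw (c * t + θ) (φ t z))) atTop (𝓝 l)

theorem good_of_moments {N : ℕ} (V : VFlow N) (c : ℝ) {z : Conf N}
    (h1 : ∀ a b : Fin N → ℕ, ∃ l, Tendsto (fun T => lam V c z T (mono a b)) atTop (𝓝 l))
    (h2 : ∀ a b : Fin N → ℕ, ∑ i, a i ≠ ∑ i, b i →
      Tendsto (fun T => lam V c z T (mono a b)) atTop (𝓝 0)) : Good V.φ c z := by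
  intro Ψ hΨ
  obtain ⟨l, hl⟩ := sw_exists (lam V c z) (lam_bound V c z) h1
    ((⟨fun w => (Ψ w : ℂ), by fun_prop⟩ : C(Fin N → ℂ, ℂ)).comp (turnC 0))
  simp only [lam_ofReal V c z _ 0 hΨ] at hl
  have hl' := (Complex.continuous_re.tendsto l).comp hl
  simp only [Function.comp_def, Complex.ofReal_re] at hl'
  refine ⟨l.re, fun θ => ?_⟩
  have h3 := sw_turn (lam V c z) (lam_bound V c z) h2 (⟨fun w => (Ψ w : ℂ), by fun_prop⟩) θ
  have h4 := sw_turn (lam V c z) (lam_bound V c z) h2 (⟨fun w => (Ψ w : ℂ), by fun_prop⟩) 0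
  have h5 := h3.sub h4
  simp only [sub_sub_sub_cancel_right, sub_zero, lam_ofReal V c z _ _ hΨ] at h5
  have h6 := (Complex.continuous_re.tendsto 0).comp h5
  simp only [Function.comp_def, ← Complex.ofReal_sub, Complex.ofReal_re, Complex.zero_re] at h6
  have h7 := h6.add hl'
  rw [zero_add] at h7
  refine h7.congr (fun T => ?_)
  ring

/-- for a fixed speed `c ≠ 0` almost every datum is good -/
theorem VFlow.good_fixed {N : ℕ} (V : VFlow N) {c : ℝ} (hc : c ≠ 0) :
    ∀ᵐ z : Conf N, Good V.φ c z := by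
  filter_upwards [V.frames0 c] with z hz Ψ hΨ
  exact (hz Ψ hΨ).2 hc

/-- for almost every datum all speeds but countably many are good -/
theorem VFlow.good_all {N : ℕ} (V : VFlow N) :
    ∀ᵐ z : Conf N, {c : ℝ | ¬ Good V.φ c z}.Countable := by
  have h1 : ∀ᵐ z : Conf N, ∀ a b : Fin N → ℕ,
      (∃ l, Tendsto (fun T => lam V 0 z T (mono a b)) atTop (𝓝 l)) ∧
      (∀ m : ℕ, 0 < m → ∀ j : ℕ, ∃ l : ℂ, Tendsto (fun n : ℕ =>
        (n : ℂ)⁻¹ * ∑ k ∈ Finset.range n,
          mono a b (V.φ (((k + j : ℕ) : ℝ) / m) z) * conj (mono a b (V.φ ((k : ℝ) / m) z)))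
          atTop (𝓝 l)) := by
    rw [ae_all_iff]
    intro a
    rw [ae_all_iff]
    intro b
    filter_upwards [V.moments 0 a b, V.correl (mono a b).continuous] with z hz hz'
    exact ⟨hz.1, hz'⟩
  filter_upwards [h1, V.ae] with z hz hinj
  have h2 : ∀ a b : Fin N → ℕ, ∑ i, a i ≠ ∑ i, b i →
      {c : ℝ | ¬ Tendsto (fun T => lam V c z T (mono a b)) atTop (𝓝 0)}.Countable := by
    intro a b hab
    have hw : wt a b ≠ 0 := by
      unfold wt
      rw [sub_ne_zero]
      exact_mod_cast hab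
    obtain ⟨C, hC⟩ := mono_bound (N := N) a b (inertia z)
    obtain ⟨L, hL⟩ := V.orbit_lip a b hinj
    have h3 := countable_freq_cont (h := fun t => mono a b (V.φ t z)) (L := L) (C := C)
      (fun t => hC _ (V.inert t z).le) hL (hz a b).2
    have h4 : Function.Injective fun c : ℝ => c * wt a b := fun x y hxy => mul_right_cancel₀ hw hxy
    refine (h3.preimage h4).mono fun c hc => ?_
    simp only [mem_preimage, Set.mem_ofPred_eq] at hc ⊢
    intro h5
    apply hc
    refine h5.congr fun T => ?_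
    rw [lam_mono]
    rfl
  have h5 : {c : ℝ | ¬ Good V.φ c z} ⊆ ⋃ a : Fin N → ℕ, ⋃ b : Fin N → ℕ,
      {c : ℝ | ∑ i, a i ≠ ∑ i, b i ∧ ¬ Tendsto (fun T => lam V c z T (mono a b)) atTop (𝓝 0)} := by
    intro c hc
    by_contra h6
    simp only [mem_iUnion, Set.mem_ofPred_eq, not_exists, not_and, not_not] at h6
    apply hc
    refine good_of_moments V c (fun a b => ?_) h6
    by_cases hab : ∑ i, a i ≠ ∑ i, b i
    · exact ⟨0, h6 a b hab⟩
    · obtain ⟨l, hl⟩ := (hz a b).1
      refine ⟨l, hl.congr fun T => ?_⟩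
      rw [lam_mono, lam_mono]
      have : wt a b = 0 := by
        unfold wt
        rw [not_not.1 hab, sub_self]
      rw [this, mul_zero, mul_zero]
  refine Set.Countable.mono h5 (countable_iUnion fun a => countable_iUnion fun b => ?_)
  by_cases hab : ∑ i, a i ≠ ∑ i, b i
  · exact (h2 a b hab).mono fun c hc => hc.2
  · refine (countable_empty).mono fun c hc => absurd hc.1 hab

end

end Pool.Agent.Lib_helper25.PV
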