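import Pool.Agent.Lib_helper25.PV.B5b

/-! Project PV (MP_b08f5f_an): the question and the isotropy of ensembles. -/

set_option autoImplicit false

namespace Pool.Agent.Lib_helper25.PV

open MeasureTheory Filter Topology Set
open scoped ComplexConjugate

noncomputable section

/-- the question for `N` vortices (for almost every `z` in `ℂ ^ N`, seen from the centre) -/
def Isotropic (N : ℕ) : Prop :=
  ∀ᵐ z : Conf N, ∀ w : ℝ → Conf N, Motion w → w 0 = z → ∀ Φ : ℂ → ℝ, Continuous Φ →
    ∃ l : ℝ, ∀ θ : ℝ, Tendsto (fun T : ℝ => T⁻¹ * ∫ t in (0 : ℝ)..T,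
      (∑ k, Φ (seen θ (w t) k)) / N) atTop (𝓝 l)

/-- ensembles become isotropic -/
def EnsIso {N : ℕ} (φ : ℝ → Conf N → Conf N) : Prop :=
  ∀ ρ : Conf N → ℝ, Integrable ρ → ∀ Φ : ℂ → ℝ, Continuous Φ → (∃ C, ∀ x, |Φ x| ≤ C) →
    ∃ l : ℝ, ∀ θ : ℝ, Tendsto (fun t : ℝ => ∫ z, ρ z * ((∑ k, Φ (seen θ (φ t z) k)) / N)) atTop
      (𝓝 l)

/-- the mean of `Φ` over the `N` points, seen from the centre and turned by `θ` -/
def mn {N : ℕ} (Φ : ℂ → ℝ) (θ : ℝ) (z : Conf N) : ℝ := (∑ k, Φ (seen θ z k)) / N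

theorem continuous_mn {N : ℕ} {Φ : ℂ → ℝ} (hΦ : Continuous Φ) (θ : ℝ) :
    Continuous (mn (N := N) Φ θ) := by
  unfold mn
  refine Continuous.div_const (continuous_finsetSum _ fun k _ => ?_) _
  exact hΦ.comp ((continuous_apply k).comp (continuous_seen_const θ))

theorem abs_mn_le {N : ℕ} {Φ : ℂ → ℝ} {C : ℝ} (θ : ℝ) (z : Conf N) (hC0 : 0 ≤ C)
    (hC : ∀ k, |Φ (seen θ z k)| ≤ C) : |mn Φ θ z| ≤ C := by
  unfold mn
  rcases Nat.eq_zero_or_pos N with h | h
  · subst h
    simpa using hC0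
  · have hN : (0 : ℝ) < N := by exact_mod_cast h
    rw [abs_div, abs_of_pos hN, div_le_iff₀ hN]
    calc |∑ k, Φ (seen θ z k)| ≤ ∑ k : Fin N, C :=
          (Finset.abs_sum_le_sum_abs _ _).trans (Finset.sum_le_sum fun k _ => hC k)
      _ = C * N := by simp [mul_comm]

theorem avg_ofReal {N : ℕ} (V : VFlow N) (f : Conf N → ℝ) (T : ℝ) (z : Conf N) :
    avg V 0 (fun z => (f z : ℂ)) T z = ((T⁻¹ * ∫ t in (0 : ℝ)..T, f (V.φ t z) : ℝ) : ℂ) := by
  unfold avg
  rw [Complex.ofReal_mul, Complex.ofReal_inv, ← intervalIntegral.integral_ofReal]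
  congr 2
  funext t
  simp

theorem ensIso_of_isotropic {N : ℕ} (V : VFlow N) (h : Isotropic N) : EnsIso V.φ := by
  intro ρ hρ Φ hΦ hb
  obtain ⟨C, hC⟩ := hb
  have hC0 : 0 ≤ C := (abs_nonneg _).trans (hC 0)
  have hmeas : ∀ θ, Measurable fun z : Conf N => (mn Φ θ z : ℂ) := fun θ =>
    (Complex.continuous_ofReal.comp (continuous_mn hΦ θ)).measurable
  have hbd : ∀ θ, ∀ z : Conf N, ‖(mn Φ θ z : ℂ)‖ ≤ C := by
    intro θ z
    rw [Complex.norm_real, Real.norm_eq_abs]
    exact abs_mn_le θ z hC0 fun k => hC _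
  obtain ⟨g, hg, -, hlim, -⟩ := V.avg_exists 0 (hmeas 0) (fun _ => ⟨C, fun z _ => hbd 0 z⟩)
  have key : ∀ θ : ℝ, ∀ᵐ z, Tendsto (fun T : ℝ => avg V 0 (fun z => (mn Φ θ z : ℂ)) T z) atTop
      (𝓝 (g z)) := by
    intro θ
    filter_upwards [h, V.ae, hlim] with z hz hinj hlz
    obtain ⟨l, hl⟩ := hz (fun t => V.φ t z) (V.motion z hinj) (V.zero z) Φ hΦ
    have h1 : ∀ θ : ℝ, Tendsto (fun T : ℝ => avg V 0 (fun z => (mn Φ θ z : ℂ)) T z) atTop
        (𝓝 (l : ℂ)) := by
      intro θ
      simp only [avg_ofReal]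
      exact (Complex.continuous_ofReal.tendsto l).comp (hl θ)
    rw [tendsto_nhds_unique hlz (h1 0)]
    exact h1 θ
  have hρ' : Integrable fun z => (ρ z : ℂ) := hρ.ofReal
  refine ⟨(∫ z, g z * (ρ z : ℂ)).re, fun θ => ?_⟩
  have h2 := V.law_limit (hmeas θ) (hbd θ) hg (key θ) hρ'
  have h3 := (Complex.continuous_re.tendsto _).comp h2
  refine h3.congr (fun t => ?_)
  simp only [Function.comp_def]
  have h4 : ∀ z, (mn Φ θ (V.φ t z) : ℂ) * (ρ z : ℂ) =
      ((ρ z * ((∑ k, Φ (seen θ (V.φ t z) k)) / N) : ℝ) : ℂ) := by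
    intro z
    unfold mn
    push_cast
    ring
  simp only [h4]
  rw [integral_complex_ofReal]
  exact Complex.ofReal_re _

/-- the mean of a monomial -/
def mm {N : ℕ} (a b : Unit → ℕ) (θ : ℝ) (z : Conf N) : ℂ :=
  (∑ k, mono a b (fun _ => seen θ z k)) / N

theorem continuous_mm {N : ℕ} (a b : Unit → ℕ) (θ : ℝ) : Continuous (mm (N := N) a b θ) := by
  unfold mm
  refine Continuous.div_const (continuous_finsetSum _ fun k _ => ?_) _
  exact (mono a b).continuous.comp
    (continuous_pi fun _ => (continuous_apply k).comp (continuous_seen_const θ))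

theorem mm_rot {N : ℕ} (a b : Unit → ℕ) (θ : ℝ) (z : Conf N) :
    mm a b θ z = Complex.exp ((wt a b : ℝ) * θ * Complex.I) * mm a b 0 z := by
  unfold mm
  rw [← mul_div_assoc, Finset.mul_sum]
  congr 1
  refine Finset.sum_congr rfl fun k _ => ?_
  rw [← mono_rot]
  congr 1
  funext i
  simp [seen]

theorem mm_re {N : ℕ} (a b : Unit → ℕ) (θ : ℝ) (z : Conf N) :
    (mm a b θ z).re = mn (fun x => (mono a b (fun _ => x)).re) θ z := by
  unfold mm mn
  rw [Complex.div_natCast_re, Complex.re_sum]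

theorem mm_im {N : ℕ} (a b : Unit → ℕ) (θ : ℝ) (z : Conf N) :
    (mm a b θ z).im = mn (fun x => (mono a b (fun _ => x)).im) θ z := by
  unfold mm mn
  rw [Complex.div_natCast_im, Complex.im_sum]

theorem mono_unit_bound (a b : Unit → ℕ) (R : ℝ) :
    ∃ C, 0 ≤ C ∧ ∀ x : ℂ, ‖x‖ ≤ R → ‖mono a b (fun _ => x)‖ ≤ C := by
  obtain ⟨C, hC⟩ := (isCompact_closedBall (0 : ℂ) R).exists_bound_of_continuousOn
    (f := fun x : ℂ => mono a b (fun _ => x))
    ((mono a b).continuous.comp (continuous_pi fun _ => continuous_id)).continuousOn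
  refine ⟨max C 0, le_max_right _ _, fun x hx => (hC x ?_).trans (le_max_left _ _)⟩
  rwa [mem_closedBall_zero_iff]

theorem mm_bound {N : ℕ} (a b : Unit → ℕ) (R : ℝ) :
    ∃ C, ∀ z : Conf N, inertia z ≤ R → ‖mm a b 0 z‖ ≤ C := by
  obtain ⟨C, hC0, hC⟩ := mono_unit_bound a b (2 * √R)
  refine ⟨C, fun z hz => ?_⟩
  unfold mm
  rcases Nat.eq_zero_or_pos N with h | h
  · subst h
    simpa using hC0
  · have hN : (0 : ℝ) < N := by exact_mod_cast h
    rw [norm_div, Complex.norm_natCast, div_le_iff₀ hN]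
    calc ‖∑ k, mono a b (fun _ => seen 0 z k)‖ ≤ ∑ k : Fin N, C :=
          norm_sum_le_of_le _ (fun k _ => hC _ ((norm_seen_le 0 z k).trans (by gcongr)))
      _ = C * N := by simp [mul_comm]

/-- time averages of one-particle functions, as linear functionals -/
def lam1 {N : ℕ} (V : VFlow N) (z : Conf N) (T : ℝ) : C(Unit → ℂ, ℂ) →ₗ[ℂ] ℂ where
  toFun Ψ := (T : ℂ)⁻¹ * ∫ t in (0 : ℝ)..T, (∑ k, Ψ (fun _ => seen 0 (V.φ t z) k)) / N
  map_add' Ψ Ψ' := by
    have hc : Continuous fun t : ℝ => seen 0 (V.φ t z) := by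
      simpa using continuous_orbit V 0 0 z
    have h0 : ∀ Ψ : C(Unit → ℂ, ℂ), IntervalIntegrable
        (fun t : ℝ => (∑ k, Ψ (fun _ => seen 0 (V.φ t z) k)) / N) volume 0 T := by
      intro Ψ
      refine Continuous.intervalIntegrable ?_ _ _
      refine Continuous.div_const (continuous_finsetSum _ fun k _ => ?_) _
      exact Ψ.continuous.comp (continuous_pi fun _ => (continuous_apply k).comp hc)
    simp only [ContinuousMap.add_apply, Finset.sum_add_distrib, add_div]
    rw [intervalIntegral.integral_add (h0 Ψ) (h0 Ψ')]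
    ring
  map_smul' r Ψ := by
    simp only [ContinuousMap.smul_apply, smul_eq_mul, RingHom.id_apply, ← Finset.mul_sum,
      mul_div_assoc]
    rw [intervalIntegral.integral_const_mul]
    ring

theorem lam1_apply {N : ℕ} (V : VFlow N) (z : Conf N) (T : ℝ) (Ψ : C(Unit → ℂ, ℂ)) :
    lam1 V z T Ψ =
      (T : ℂ)⁻¹ * ∫ t in (0 : ℝ)..T, (∑ k, Ψ (fun _ => seen 0 (V.φ t z) k)) / N := rfl

theorem lam1_bound {N : ℕ} (V : VFlow N) (z : Conf N) :
    ∀ T > 0, ∀ (Ψ : C(Unit → ℂ, ℂ)) (M : ℝ),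
      (∀ w, (∀ i, ‖w i‖ ≤ 2 * √(inertia z)) → ‖Ψ w‖ ≤ M) → ‖lam1 V z T Ψ‖ ≤ M := by
  intro T hT Ψ M hM
  have hM0 : 0 ≤ M := (norm_nonneg _).trans (hM 0 fun i => by simp)
  rw [lam1_apply, norm_mul, norm_inv, Complex.norm_real, Real.norm_of_nonneg hT.le]
  have h1 : ‖∫ t in (0 : ℝ)..T, (∑ k, Ψ (fun _ => seen 0 (V.φ t z) k)) / (N : ℂ)‖ ≤
      M * |T - 0| := by
    refine intervalIntegral.norm_integral_le_of_norm_le_const (fun t _ => ?_)
    rcases Nat.eq_zero_or_pos N with h | h
    · subst h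
      simpa using hM0
    · have hN : (0 : ℝ) < N := by exact_mod_cast h
      rw [norm_div, Complex.norm_natCast, div_le_iff₀ hN]
      calc ‖∑ k, Ψ (fun _ => seen 0 (V.φ t z) k)‖ ≤ ∑ k : Fin N, M :=
            norm_sum_le_of_le _ (fun k _ => hM _ (fun _ => norm_orbit_le V 0 t z k))
        _ = M * N := by simp [mul_comm]
  rw [sub_zero, abs_of_pos hT] at h1
  calc T⁻¹ * ‖∫ t in (0 : ℝ)..T, (∑ k, Ψ (fun _ => seen 0 (V.φ t z) k)) / (N : ℂ)‖
      ≤ T⁻¹ * (M * T) := by gcongr
    _ = M := by field_simp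

theorem lam1_mono {N : ℕ} (V : VFlow N) (z : Conf N) (T : ℝ) (a b : Unit → ℕ) :
    lam1 V z T (mono a b) = avg V 0 (mm a b 0) T z := by
  rw [lam1_apply]
  unfold avg mm
  congr 2
  funext t
  simp

/-- for an ensemble supported in a bounded set the averages with a weight vanish -/
theorem ens_moment {N : ℕ} (V : VFlow N) (h : EnsIso V.φ) (a b : Unit → ℕ) (hab : wt a b ≠ 0)
    {g : Conf N → ℂ} (hg : Measurable g)
    (hlim : ∀ᵐ z, Tendsto (fun T => avg V 0 (mm a b 0) T z) atTop (𝓝 (g z))) (R : ℝ)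
    {ρ : Conf N → ℝ} (hρ : Integrable ρ) (hs : ∀ z, R < inertia z → ρ z = 0) :
    ∫ z, g z * (ρ z : ℂ) = 0 := by
  -- truncation
  obtain ⟨M, hM0, hM⟩ := mono_unit_bound a b (2 * √R)
  have htr : ∀ (u : ℂ → ℝ), (∀ x, |u x| ≤ ‖mono a b (fun _ => x)‖) →
      ∀ θ t, ∀ z : Conf N, inertia z ≤ R →
        mn (fun x => max (-M) (min M (u x))) θ (V.φ t z) = mn u θ (V.φ t z) := by
    intro u hu θ t z hz
    unfold mn
    congr 1
    refine Finset.sum_congr rfl fun k _ => ?_
    have h1 : |u (seen θ (V.φ t z) k)| ≤ M :=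
      (hu _).trans (hM _ ((norm_orbit_le V θ t z k).trans (by gcongr)))
    rw [abs_le] at h1
    show max (-M) (min M (u (seen θ (V.φ t z) k))) = _
    rw [min_eq_right h1.2, max_eq_right h1.1]
  have hens : ∀ (u : ℂ → ℝ), Continuous u → (∀ x, |u x| ≤ ‖mono a b (fun _ => x)‖) →
      ∃ l : ℝ, ∀ θ : ℝ, Tendsto (fun t : ℝ => ∫ z, ρ z * mn u θ (V.φ t z)) atTop (𝓝 l) := by
    intro u huc hu
    obtain ⟨l, hl⟩ := h ρ hρ (fun x => max (-M) (min M (u x))) (by fun_prop)
      ⟨M, fun x => abs_le.2 ⟨le_max_left _ _, max_le (by linarith) (min_le_left _ _)⟩⟩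
    refine ⟨l, fun θ => (hl θ).congr fun t => integral_congr_ae (ae_of_all _ fun z => ?_)⟩
    by_cases hz : inertia z ≤ R
    · have := htr u hu θ t z hz
      unfold mn at this ⊢
      simp only
      rw [this]
    · simp only
      rw [hs z (not_le.1 hz), zero_mul, zero_mul]
  obtain ⟨l1, hl1⟩ := hens (fun x => (mono a b (fun _ => x)).re)
    (Complex.continuous_re.comp ((mono a b).continuous.comp (continuous_pi fun _ => continuous_id)))
    (fun x => Complex.abs_re_le_norm _)
  obtain ⟨l2, hl2⟩ := hens (fun x => (mono a b (fun _ => x)).im)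
    (Complex.continuous_im.comp ((mono a b).continuous.comp (continuous_pi fun _ => continuous_id)))
    (fun x => Complex.abs_im_le_norm _)
  simp only [← mm_re, ← mm_im] at hl1 hl2
  obtain ⟨C, hC⟩ := mm_bound (N := N) a b R
  have hρ' : Integrable fun z => (ρ z : ℂ) := hρ.ofReal
  have hφm : ∀ t, Measurable fun z => V.φ t z := fun t => (V.mp t).measurable
  have hint : ∀ t, Integrable fun z => mm a b 0 (V.φ t z) * (ρ z : ℂ) := by
    intro t
    refine (hρ'.norm.const_mul C).mono'
      (((continuous_mm a b 0).measurable.comp (hφm t)).aestronglyMeasurable.mul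
        hρ'.aestronglyMeasurable) (ae_of_all _ fun z => ?_)
    by_cases hz : inertia z ≤ R
    · rw [norm_mul]
      have : ‖mm a b 0 (V.φ t z)‖ ≤ C := hC _ (by rw [V.inert]; exact hz)
      gcongr
    · rw [hs z (not_le.1 hz)]
      simp
  set J : ℝ → ℂ := fun t => ∫ z, mm a b 0 (V.φ t z) * (ρ z : ℂ) with hJ
  have hJθ : ∀ θ t, ∫ z, mm a b θ (V.φ t z) * (ρ z : ℂ) =
      Complex.exp ((wt a b : ℝ) * θ * Complex.I) * J t := by
    intro θ t
    rw [hJ, ← integral_const_mul]
    refine integral_congr_ae (ae_of_all _ fun z => ?_)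
    simp only
    rw [mm_rot a b θ]
    ring
  have hintθ : ∀ θ t, Integrable fun z => mm a b θ (V.φ t z) * (ρ z : ℂ) := by
    intro θ t
    refine ((hint t).const_mul (Complex.exp ((wt a b : ℝ) * θ * Complex.I))).congr
      (ae_of_all _ fun z => ?_)
    simp only
    rw [mm_rot a b θ]
    ring
  have hre : ∀ θ t, (∫ z, ρ z * (mm a b θ (V.φ t z)).re) =
      (Complex.exp ((wt a b : ℝ) * θ * Complex.I) * J t).re := by
    intro θ t
    rw [← hJθ, ← Complex.reCLM_apply, ← Complex.reCLM.integral_comp_comm (hintθ θ t)]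
    refine integral_congr_ae (ae_of_all _ fun z => ?_)
    simp [mul_comm]
  have him : ∀ θ t, (∫ z, ρ z * (mm a b θ (V.φ t z)).im) =
      (Complex.exp ((wt a b : ℝ) * θ * Complex.I) * J t).im := by
    intro θ t
    rw [← hJθ, ← Complex.imCLM_apply, ← Complex.imCLM.integral_comp_comm (hintθ θ t)]
    refine integral_congr_ae (ae_of_all _ fun z => ?_)
    simp [mul_comm]
  simp only [hre] at hl1
  simp only [him] at hl2
  have e0 : Complex.exp ((wt a b : ℝ) * (0 : ℝ) * Complex.I) = 1 := by simp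
  have e1 : Complex.exp ((wt a b : ℝ) * ((Real.pi / wt a b : ℝ) : ℂ) * Complex.I) = -1 := by
    have : ((wt a b : ℝ) : ℂ) * ((Real.pi / wt a b : ℝ) : ℂ) = (Real.pi : ℂ) := by
      rw [← Complex.ofReal_mul]
      congr 1
      field_simp
    rw [this, Complex.exp_pi_mul_I]
  have a1 := hl1 0
  have a2 := hl1 (Real.pi / wt a b)
  have b1 := hl2 0
  have b2 := hl2 (Real.pi / wt a b)
  simp only [e0, e1, one_mul, neg_mul, Complex.neg_re, Complex.neg_im] at a1 a2 b1 b2
  have z1 : l1 = 0 := by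
    have := tendsto_nhds_unique a2 a1.neg
    linarith
  have z2 : l2 = 0 := by
    have := tendsto_nhds_unique b2 b1.neg
    linarith
  subst z1
  subst z2
  have hJ0 : Tendsto J atTop (𝓝 0) := by
    have h3 := ((Complex.continuous_ofReal.tendsto _).comp a1).add
      (((Complex.continuous_ofReal.tendsto _).comp b1).mul_const Complex.I)
    simp only [Function.comp_def, Complex.ofReal_zero, zero_mul, add_zero, Complex.re_add_im] at h3
    exact h3
  -- the limit from the law
  have hmS : MeasurableSet {z : Conf N | inertia z ≤ R} :=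
    (isClosed_le continuous_inertia continuous_const).measurableSet
  have hlim' : ∀ᵐ z, Tendsto (fun T : ℝ =>
      avg V 0 ({z : Conf N | inertia z ≤ R}.indicator (mm a b 0)) T z) atTop
      (𝓝 ({z : Conf N | inertia z ≤ R}.indicator g z)) := by
    filter_upwards [hlim] with z hz
    by_cases h : inertia z ≤ R
    · rw [indicator_of_mem (show z ∈ {z : Conf N | inertia z ≤ R} from h)]
      refine hz.congr fun T => ?_
      unfold avg
      congr 2
      funext t
      rw [indicator_of_mem (show V.φ t z ∈ {z : Conf N | inertia z ≤ R} by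
        rw [Set.mem_ofPred_eq, V.inert]; exact h)]
    · rw [indicator_of_notMem (show z ∉ {z : Conf N | inertia z ≤ R} from h)]
      refine tendsto_const_nhds.congr fun T => ?_
      unfold avg
      have : ∀ t : ℝ, ({z : Conf N | inertia z ≤ R}.indicator (mm a b 0)) (V.φ t z) = 0 := by
        intro t
        rw [indicator_of_notMem (show V.φ t z ∉ {z : Conf N | inertia z ≤ R} by
          rw [Set.mem_ofPred_eq, V.inert]; exact h)]
      simp [this]
  have hC' : ∀ z, ‖({z : Conf N | inertia z ≤ R}.indicator (mm a b 0)) z‖ ≤ max C 0 := by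
    intro z
    by_cases h : inertia z ≤ R
    · rw [indicator_of_mem (show z ∈ {z : Conf N | inertia z ≤ R} from h)]
      exact (hC z h).trans (le_max_left _ _)
    · rw [indicator_of_notMem (show z ∉ {z : Conf N | inertia z ≤ R} from h), norm_zero]
      exact le_max_right _ _
  have h5 := V.law_limit (((continuous_mm a b 0).measurable).indicator hmS) hC'
    (hg.indicator hmS) hlim' hρ'
  have h6 : ∀ z, {z : Conf N | inertia z ≤ R}.indicator g z * (ρ z : ℂ) = g z * (ρ z : ℂ) := by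
    intro z
    by_cases h : inertia z ≤ R
    · rw [indicator_of_mem (show z ∈ {z : Conf N | inertia z ≤ R} from h)]
    · rw [hs z (not_le.1 h)]
      simp
  have h7 : ∀ t z, ({z : Conf N | inertia z ≤ R}.indicator (mm a b 0)) (V.φ t z) * (ρ z : ℂ) =
      mm a b 0 (V.φ t z) * (ρ z : ℂ) := by
    intro t z
    by_cases h : inertia z ≤ R
    · rw [indicator_of_mem (show V.φ t z ∈ {z : Conf N | inertia z ≤ R} by
        rw [Set.mem_ofPred_eq, V.inert]; exact h)]
    · rw [hs z (not_le.1 h)]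
      simp
  simp only [h6, h7] at h5
  exact tendsto_nhds_unique h5 hJ0

/-- if ensembles become isotropic, the time averages with a weight vanish -/
theorem moment_zero {N : ℕ} (V : VFlow N) (h : EnsIso V.φ) (a b : Unit → ℕ) (hab : wt a b ≠ 0)
    {g : Conf N → ℂ} (hg : Measurable g) (hgb : ∀ R : ℝ, ∃ C, ∀ z, inertia z ≤ R → ‖g z‖ ≤ C)
    (hlim : ∀ᵐ z, Tendsto (fun T => avg V 0 (mm a b 0) T z) atTop (𝓝 (g z))) :
    g =ᵐ[volume] 0 := by
  have key : ∀ n : ℕ, {z : Conf N | inertia z ≤ n}.indicator g =ᵐ[volume] 0 := by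
    intro n
    set S : Set (Conf N) := {z : Conf N | inertia z ≤ n} with hS
    have hmS : MeasurableSet S :=
      (isClosed_le continuous_inertia continuous_const).measurableSet
    obtain ⟨C, hC⟩ := hgb n
    have hL2 : MemLp (S.indicator g) 2 volume := memLp_cut hg hC
    have hL1 : Integrable (S.indicator g) := by
      have h1 : Integrable (S.indicator fun _ : Conf N => (1 : ℂ)) := by
        have h2 := memLp_cut (N := N) (g := fun _ => (1 : ℂ)) measurable_const (R := n) (C := 1)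
          (fun _ _ => by simp)
        have h3 := (h2.integrable_mul h2)
        refine h3.congr (ae_of_all _ fun z => ?_)
        by_cases hz : z ∈ S
        · simp [Pi.mul_apply, indicator_of_mem (show z ∈ {z : Conf N | inertia z ≤ n} from hz),
            indicator_of_mem hz]
        · simp [Pi.mul_apply, indicator_of_notMem (show z ∉ {z : Conf N | inertia z ≤ n} from hz),
            indicator_of_notMem hz]
      refine (h1.norm.const_mul C).mono' ((hg.indicator hmS).aestronglyMeasurable)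
        (ae_of_all _ fun z => ?_)
      by_cases hz : z ∈ S
      · rw [indicator_of_mem hz, indicator_of_mem hz, norm_one, mul_one]
        exact hC z hz
      · rw [indicator_of_notMem hz, indicator_of_notMem hz]
        simp
    have hout : ∀ z : Conf N, (n : ℝ) < inertia z → z ∉ S := fun z hz => not_le.2 hz
    have r1 := ens_moment V h a b hab hg hlim n (ρ := fun z => (S.indicator g z).re) hL1.re
      (fun z hz => by
        show (S.indicator g z).re = 0
        rw [indicator_of_notMem (hout z hz)]; rfl)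
    have r2 := ens_moment V h a b hab hg hlim n (ρ := fun z => (S.indicator g z).im) hL1.im
      (fun z hz => by
        show (S.indicator g z).im = 0
        rw [indicator_of_notMem (hout z hz)]; rfl)
    have hsq : Integrable fun z => ‖S.indicator g z‖ ^ 2 := hL2.integrable_norm_pow (by norm_num)
    have hSg : Measurable (S.indicator g) := hg.indicator hmS
    have hgS : ∀ z, ∀ x : ℂ → ℝ, x 0 = 0 → g z * (x (S.indicator g z) : ℂ) =
        S.indicator g z * (x (S.indicator g z) : ℂ) := by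
      intro z x hx
      by_cases hz : z ∈ S
      · rw [indicator_of_mem hz]
      · rw [indicator_of_notMem hz, hx]
        simp
    have i1 : Integrable fun z => g z * ((S.indicator g z).re : ℂ) := by
      refine hsq.mono' (hg.mul (Complex.measurable_ofReal.comp
        (Complex.measurable_re.comp hSg))).aestronglyMeasurable (ae_of_all _ fun z => ?_)
      rw [hgS z Complex.re rfl, norm_mul, sq, Complex.norm_real]
      gcongr
      exact Complex.abs_re_le_norm _
    have i2 : Integrable fun z => g z * ((S.indicator g z).im : ℂ) := by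
      refine hsq.mono' (hg.mul (Complex.measurable_ofReal.comp
        (Complex.measurable_im.comp hSg))).aestronglyMeasurable (ae_of_all _ fun z => ?_)
      rw [hgS z Complex.im rfl, norm_mul, sq, Complex.norm_real]
      gcongr
      exact Complex.abs_im_le_norm _
    have h8 : ∫ z, (‖S.indicator g z‖ ^ 2 : ℝ) = 0 := by
      have h9 : ((∫ z, (‖S.indicator g z‖ ^ 2 : ℝ) : ℝ) : ℂ) =
          (∫ z, g z * ((S.indicator g z).re : ℂ)) -
            Complex.I * ∫ z, g z * ((S.indicator g z).im : ℂ) := by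
        rw [← integral_complex_ofReal, ← integral_const_mul, ← integral_sub i1 (i2.const_mul _)]
        refine integral_congr_ae (ae_of_all _ fun z => ?_)
        simp only
        rw [hgS z Complex.re rfl, hgS z Complex.im rfl]
        generalize S.indicator g z = x
        rw [show ((‖x‖ ^ 2 : ℝ) : ℂ) = x * conj x by
          rw [Complex.mul_conj, Complex.normSq_eq_norm_sq]]
        have hx : conj x = (x.re : ℂ) - Complex.I * x.im := by
          apply Complex.ext <;> simp
        rw [hx]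
        ring
      rw [r1, r2, mul_zero, sub_zero] at h9
      exact_mod_cast h9
    rw [integral_eq_zero_iff_of_nonneg (fun z => by positivity) hsq] at h8
    filter_upwards [h8] with z hz
    simpa using hz
  filter_upwards [ae_all_iff.2 key] with z hz
  obtain ⟨n, hn⟩ := exists_nat_ge (inertia z)
  have := hz n
  rwa [indicator_of_mem (show z ∈ {z : Conf N | inertia z ≤ n} from hn)] at this

theorem lam1_ofReal {N : ℕ} (V : VFlow N) (z : Conf N) (T θ : ℝ) {Φ : ℂ → ℝ}
    (hΦ : Continuous Φ) :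
    lam1 V z T ((⟨fun w => (Φ (w ()) : ℂ), by fun_prop⟩ : C(Unit → ℂ, ℂ)).comp (turnC θ)) =
      ((T⁻¹ * ∫ t in (0 : ℝ)..T, (∑ k, Φ (seen θ (V.φ t z) k)) / N : ℝ) : ℂ) := by
  rw [lam1_apply, Complex.ofReal_mul, Complex.ofReal_inv, ← intervalIntegral.integral_ofReal]
  congr 2
  funext t
  rw [Complex.ofReal_div, Complex.ofReal_sum, Complex.ofReal_natCast]
  congr 1
  refine Finset.sum_congr rfl fun k _ => ?_
  simp [turnC, seen]

theorem isotropic_of_ensIso {N : ℕ} (V : VFlow N) (h : EnsIso V.φ) : Isotropic N := by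
  have h1 : ∀ a b : Unit → ℕ, ∀ᵐ z : Conf N,
      (∃ l, Tendsto (fun T => lam1 V z T (mono a b)) atTop (𝓝 l)) ∧
      (∑ i, a i ≠ ∑ i, b i → Tendsto (fun T => lam1 V z T (mono a b)) atTop (𝓝 0)) := by
    intro a b
    obtain ⟨g, hg, hgb, hlim, -⟩ := V.avg_exists 0 (continuous_mm a b 0).measurable (mm_bound a b)
    have hgb' : ∀ R : ℝ, ∃ C, ∀ z, inertia z ≤ R → ‖g z‖ ≤ C := fun R => by
      obtain ⟨C, hC⟩ := mm_bound (N := N) a b R
      exact ⟨C, hgb R C hC⟩
    by_cases hab : ∑ i, a i ≠ ∑ i, b i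
    · have hw : wt a b ≠ 0 := by
        unfold wt
        rw [sub_ne_zero]
        exact_mod_cast hab
      filter_upwards [hlim, moment_zero V h a b hw hg hgb' hlim] with z hz hz0
      rw [hz0] at hz
      simp only [lam1_mono]
      exact ⟨⟨_, hz⟩, fun _ => hz⟩
    · filter_upwards [hlim] with z hz
      simp only [lam1_mono]
      exact ⟨⟨_, hz⟩, fun h1 => absurd h1 hab⟩
  have h2 : ∀ᵐ z : Conf N, ∀ a b : Unit → ℕ,
      (∃ l, Tendsto (fun T => lam1 V z T (mono a b)) atTop (𝓝 l)) ∧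
      (∑ i, a i ≠ ∑ i, b i → Tendsto (fun T => lam1 V z T (mono a b)) atTop (𝓝 0)) := by
    rw [ae_all_iff]
    intro a
    rw [ae_all_iff]
    exact fun b => h1 a b
  unfold Isotropic
  filter_upwards [h2] with z hz w hw hw0 Φ hΦ
  have hwφ : ∀ t, w t = V.φ t z := fun t => by rw [V.uniq w hw t, hw0]
  simp only [hwφ]
  obtain ⟨l, hl⟩ := sw_exists (lam1 V z) (lam1_bound V z) (fun a b => (hz a b).1)
    ((⟨fun w => (Φ (w ()) : ℂ), by fun_prop⟩ : C(Unit → ℂ, ℂ)).comp (turnC 0))
  simp only [lam1_ofReal V z _ 0 hΦ] at hl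
  have hl' := (Complex.continuous_re.tendsto l).comp hl
  simp only [Function.comp_def, Complex.ofReal_re] at hl'
  refine ⟨l.re, fun θ => ?_⟩
  have hm : ∀ a b : Unit → ℕ, ∑ i, a i ≠ ∑ i, b i →
      Tendsto (fun T => lam1 V z T (mono a b)) atTop (𝓝 0) := fun a b h => (hz a b).2 h
  have h3 := sw_turn (lam1 V z) (lam1_bound V z) hm (⟨fun w => (Φ (w ()) : ℂ), by fun_prop⟩) θ
  have h4 := sw_turn (lam1 V z) (lam1_bound V z) hm (⟨fun w => (Φ (w ()) : ℂ), by fun_prop⟩) 0
  have h5 := h3.sub h4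
  simp only [sub_sub_sub_cancel_right, sub_zero, lam1_ofReal V z _ _ hΦ] at h5
  have h6 := (Complex.continuous_re.tendsto 0).comp h5
  simp only [Function.comp_def, ← Complex.ofReal_sub, Complex.ofReal_re, Complex.zero_re] at h6
  have h7 := h6.add hl'
  rw [zero_add] at h7
  refine h7.congr (fun T => ?_)
  ring

/-- the question is the same as the isotropy of ensembles -/
theorem isotropic_iff {N : ℕ} (V : VFlow N) : Isotropic N ↔ EnsIso V.φ :=
  ⟨ensIso_of_isotropic V, isotropic_of_ensIso V⟩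

end

end Pool.Agent.Lib_helper25.PV
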