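import Pool.Agent.Lib_helper25.PV.B5b

/-! Project PV (MP_b08f5f_an): the vortices with a uniform background rotation. -/

set_option autoImplicit false

namespace Pool.Agent.Lib_helper25.PV

open MeasureTheory Filter Topology Set
open scoped ComplexConjugate

noncomputable section

/-- motion of the vortices with the uniform background rotation `i c w` -/
def RMotion {N : ℕ} (c : ℝ) (w : ℝ → Conf N) : Prop :=
  ∀ t, Function.Injective (w t) ∧
    ∀ i, HasDerivAt (fun s => w s i) (vel (w t) i + c * Complex.I * w t i) t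

theorem conj_exp_I (a : ℝ) : conj (Complex.exp (a * Complex.I)) = Complex.exp (-(a * Complex.I)) := by
  rw [← Complex.exp_conj, map_mul, Complex.conj_ofReal, Complex.conj_I, mul_neg]

theorem vel_tw {N : ℕ} (a : ℝ) (z : Conf N) : vel (tw a z) = tw a (vel z) := by
  funext i
  unfold vel tw
  have h1 : ∀ j ∈ Finset.univ.erase i,
      1 / conj (Complex.exp (a * Complex.I) * z i - Complex.exp (a * Complex.I) * z j) =
        Complex.exp (a * Complex.I) * (1 / conj (z i - z j)) := by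
    intro j _
    rw [← mul_sub, map_mul, conj_exp_I, Complex.exp_neg, one_div, mul_inv, inv_inv, one_div]
  rw [Finset.sum_congr rfl h1, ← Finset.mul_sum]
  ring

theorem tw_injective {N : ℕ} (a : ℝ) {z : Conf N} (hz : Function.Injective z) :
    Function.Injective (tw a z) := by
  intro i j h
  exact hz (mul_left_cancel₀ (Complex.exp_ne_zero _) h)

theorem tw_deriv {N : ℕ} {c : ℝ} {w : ℝ → Conf N} {t : ℝ} {i : Fin N} {v : ℂ}
    (h : HasDerivAt (fun s => w s i) v t) :
    HasDerivAt (fun s => tw (c * s) (w s) i)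
      (Complex.exp ((c * t : ℝ) * Complex.I) * (v + c * Complex.I * w t i)) t := by
  unfold tw
  have h1 : HasDerivAt (fun s : ℝ => ((c * s : ℝ) : ℂ) * Complex.I) (c * Complex.I) t := by
    have h2 : HasDerivAt (fun s : ℝ => ((c * s : ℝ) : ℂ)) ((c : ℝ) : ℂ) t := by
      have h3 : HasDerivAt (fun s : ℝ => c * s) c t := by
        simpa using (hasDerivAt_id t).const_mul c
      exact h3.ofReal_comp
    exact h2.mul_const _
  have h4 := h1.cexp.mul h
  refine h4.congr_deriv ?_
  ring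

theorem Motion.tw {N : ℕ} {c : ℝ} {w : ℝ → Conf N} (h : Motion w) :
    RMotion c (fun t => tw (c * t) (w t)) := by
  intro t
  refine ⟨tw_injective _ (h t).1, fun i => (tw_deriv ((h t).2 i)).congr_deriv ?_⟩
  rw [vel_tw]
  unfold PV.tw
  ring

theorem RMotion.untw {N : ℕ} {c : ℝ} {w : ℝ → Conf N} (h : RMotion c w) :
    Motion (fun t => PV.tw (-c * t) (w t)) := by
  intro t
  refine ⟨tw_injective _ (h t).1, fun i => (tw_deriv ((h t).2 i)).congr_deriv ?_⟩
  rw [vel_tw]
  unfold PV.tw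
  push_cast
  ring

theorem tw_zero {N : ℕ} (z : Conf N) : tw 0 z = z := by
  funext i
  simp [tw]

theorem RMotion.eq {N : ℕ} (V : VFlow N) {c : ℝ} {w : ℝ → Conf N} (h : RMotion c w) (t : ℝ) :
    w t = tw (c * t) (V.φ t (w 0)) := by
  have h1 := V.uniq _ h.untw t
  simp only [mul_zero, tw_zero] at h1
  rw [← h1, tw_tw]
  have : c * t + -c * t = 0 := by ring
  rw [this, tw_zero]

/-- existence and uniqueness -/
theorem VFlow.rmotion {N : ℕ} (V : VFlow N) (c : ℝ) {z : Conf N} (hz : Function.Injective z) :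
    ∃ w : ℝ → Conf N, RMotion c w ∧ w 0 = z ∧
      ∀ w' : ℝ → Conf N, RMotion c w' → w' 0 = z → w' = w := by
  refine ⟨fun t => tw (c * t) (V.φ t z), (V.motion z hz).tw, by simp [tw_zero, V.zero], ?_⟩
  intro w' h h0
  funext t
  rw [h.eq V t, h0]

/-- the answer with a background rotation -/
theorem VFlow.background {N : ℕ} (V : VFlow N) (c : ℝ) : ∀ᵐ z : Conf N, ∀ w : ℝ → Conf N,
    RMotion c w → w 0 = z → ∀ Ψ : Conf N → ℝ, Continuous Ψ →
    (∀ θ : ℝ, ∃ l : ℝ, Tendsto (fun T : ℝ => T⁻¹ * ∫ t in (0 : ℝ)..T,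
      Ψ (fun i => Complex.exp (θ * Complex.I) * w t i)) atTop (𝓝 l)) ∧
    (c ≠ 0 → ∃ l : ℝ, ∀ θ : ℝ, Tendsto (fun T : ℝ => T⁻¹ * ∫ t in (0 : ℝ)..T,
      Ψ (fun i => Complex.exp (θ * Complex.I) * w t i)) atTop (𝓝 l)) := by
  filter_upwards [V.frames0 c] with z hz w hw hw0 Ψ hΨ
  have h1 : ∀ θ t : ℝ, (fun i => Complex.exp (θ * Complex.I) * w t i) =
      tw (c * t + θ) (V.φ t z) := by
    intro θ t
    have h2 : (fun i => Complex.exp (θ * Complex.I) * w t i) = tw θ (w t) := rfl
    rw [h2, hw.eq V t, hw0, tw_tw, add_comm]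
  simp only [h1]
  exact hz Ψ hΨ

end

end Pool.Agent.Lib_helper25.PV
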