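import Mathlib

/-! Project PV (MP_b08f5f_an): definitions. -/

set_option autoImplicit false

namespace Pool.Agent.Lib_helper25.PV

open MeasureTheory Filter Topology Set
open scoped ComplexConjugate

noncomputable section

/-- configurations of `N` points of the plane -/
abbrev Conf (N : ℕ) := Fin N → ℂ

/-- the velocity of the `N` vortices of strength one -/
def vel {N : ℕ} (z : Conf N) : Conf N := fun i =>
  -(Complex.I / (2 * Real.pi)) * ∑ j ∈ Finset.univ.erase i, 1 / conj (z i - z j)

/-- `w` is a motion of the vortices, for all times, without collision -/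
def Motion {N : ℕ} (w : ℝ → Conf N) : Prop :=
  ∀ t, Function.Injective (w t) ∧ ∀ i, HasDerivAt (fun s => w s i) (vel (w t) i) t

/-- the centre -/
def centre {N : ℕ} (z : Conf N) : ℂ := (∑ i, z i) / N

/-- the moment of inertia -/
def inertia {N : ℕ} (z : Conf N) : ℝ := ∑ i, ‖z i‖ ^ 2

/-- the configuration seen from its centre, turned by the angle `a` -/
def seen {N : ℕ} (a : ℝ) (z : Conf N) : Conf N :=
  fun i => Complex.exp (a * Complex.I) * (z i - centre z)

/-- the set of configurations without collision -/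
def NC (N : ℕ) : Set (Conf N) := {z | Function.Injective z}

/-- the vortex flow, with all that the analysis needs; nothing moves outside of `NC N`. -/
structure VFlow (N : ℕ) where
  φ : ℝ → Conf N → Conf N
  zero : ∀ z, φ 0 z = z
  add : ∀ s t z, φ (s + t) z = φ s (φ t z)
  motion : ∀ z, Function.Injective z → Motion (fun t => φ t z)
  uniq : ∀ w, Motion w → ∀ t, w t = φ t (w 0)
  meas : Measurable (fun p : ℝ × Conf N => φ p.1 p.2)
  cont : ∀ z, Continuous fun t => φ t z
  mp : ∀ t, MeasurePreserving (φ t) volume volume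
  rot : ∀ (a : ℂ), ‖a‖ = 1 → ∀ t z, φ t (a • z) = a • φ t z
  trans : ∀ (w : ℂ) t z, φ t (fun i => z i + w) = fun i => φ t z i + w
  scale : ∀ r : ℝ, 0 < r → ∀ t z, φ t ((r : ℂ) • z) = (r : ℂ) • φ (t / r ^ 2) z
  cen : ∀ t z, centre (φ t z) = centre z
  inert : ∀ t z, inertia (φ t z) = inertia z
  ae : ∀ᵐ z : Conf N, Function.Injective z

/-- the time average of `f` along the orbit of `z` up to time `T`, with the phase `exp (i κ t)` -/
def avg {N : ℕ} (V : VFlow N) (κ : ℝ) (f : Conf N → ℂ) (T : ℝ) (z : Conf N) : ℂ :=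
  (T : ℂ)⁻¹ * ∫ t in (0 : ℝ)..T, Complex.exp (κ * t * Complex.I) * f (V.φ t z)

/-- monomials in `w i` and `conj (w i)` -/
def mono {ι : Type*} [Fintype ι] (a b : ι → ℕ) : C(ι → ℂ, ℂ) :=
  ⟨fun w => ∏ i, (w i ^ a i * conj (w i) ^ b i), by fun_prop⟩

/-- rotation of all points by the angle `θ`, as a continuous map -/
def turnC {ι : Type*} (θ : ℝ) : C(ι → ℂ, ι → ℂ) :=
  ⟨fun w i => Complex.exp (θ * Complex.I) * w i, by fun_prop⟩

end

end Pool.Agent.Lib_helper25.PV
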