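import Pool.Agent.Lib_helper25.PV.Flow
import Pool.Agent.Lib_helper25.PV.B6
import Pool.Agent.Lib_helper25.PV.B10E
import Pool.Agent.Lib_helper68.PV.B9

/-! Project PV (MP_b08f5f_an): the clauses of the theorem. -/

set_option autoImplicit false

namespace Pool.Agent.Lib_helper25.PV

open MeasureTheory Filter Topology Set
open scoped ComplexConjugate

noncomputable section

theorem rmotion_zero {N : ℕ} {w : ℝ → Conf N} : RMotion 0 w ↔ Motion w := by
  unfold RMotion Motion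
  simp

theorem seen_tw {N : ℕ} (θ a : ℝ) (y : Conf N) : seen θ (tw a y) = seen (a + θ) y := by
  have h1 : centre (tw a y) = Complex.exp (a * Complex.I) * centre y := by
    unfold centre tw
    rw [← Finset.mul_sum, mul_div_assoc]
  funext i
  unfold seen
  rw [h1]
  unfold tw
  rw [← mul_sub, ← mul_assoc, ← Complex.exp_add]
  congr 2
  push_cast
  ring

/-- all speeds but countably many, in terms of solutions with a background rotation -/
theorem VFlow.frames_all {N : ℕ} (V : VFlow N) : ∀ᵐ z : Conf N,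
    {c : ℝ | ¬ ∀ w : ℝ → Conf N, RMotion c w → w 0 = z → ∀ Ψ : Conf N → ℝ, Continuous Ψ →
      ∃ l : ℝ, ∀ θ : ℝ, Tendsto (fun T : ℝ => T⁻¹ * ∫ t in (0 : ℝ)..T, Ψ (seen θ (w t))) atTop
        (𝓝 l)}.Countable := by
  filter_upwards [V.good_all] with z hz
  refine Set.Countable.mono (fun c hc => ?_) hz
  simp only [Set.mem_ofPred_eq] at hc ⊢
  intro hg
  apply hc
  intro w hw hw0 Ψ hΨ
  obtain ⟨l, hl⟩ := hg (fun y => Ψ (seen 0 y)) (hΨ.comp (continuous_seen_const 0))
  refine ⟨l, fun θ => ?_⟩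
  have h1 : ∀ t, seen θ (w t) = seen 0 (tw (c * t + θ) (V.φ t z)) := by
    intro t
    rw [hw.eq V t, hw0, seen_tw, seen_tw, add_zero]
  simp only [h1]
  exact hl θ

/-- a fixed speed `c ≠ 0` -/
theorem VFlow.frame_fixed {N : ℕ} (V : VFlow N) {c : ℝ} (hc : c ≠ 0) : ∀ᵐ z : Conf N,
    ∀ w : ℝ → Conf N, RMotion c w → w 0 = z → ∀ Ψ : Conf N → ℝ, Continuous Ψ →
      ∃ l : ℝ, ∀ θ : ℝ, Tendsto (fun T : ℝ => T⁻¹ * ∫ t in (0 : ℝ)..T,
        Ψ (fun i => Complex.exp (θ * Complex.I) * w t i)) atTop (𝓝 l) := by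
  filter_upwards [V.background c] with z hz w hw hw0 Ψ hΨ
  exact (hz w hw hw0 Ψ hΨ).2 hc

/-- laws converge -/
theorem VFlow.laws {N : ℕ} (V : VFlow N) {f : Conf N → ℝ} (hf : Measurable f) {C : ℝ}
    (hC : ∀ z, |f z| ≤ C) : ∃ g : Conf N → ℝ, Measurable g ∧ (∀ z, |g z| ≤ C) ∧
      (∀ᵐ z : Conf N, Tendsto (fun T : ℝ => T⁻¹ * ∫ t in (0 : ℝ)..T, f (V.φ t z)) atTop
        (𝓝 (g z))) ∧
      ∀ ρ : Conf N → ℝ, Integrable ρ →
        Tendsto (fun t : ℝ => ∫ z, f (V.φ t z) * ρ z) atTop (𝓝 (∫ z, g z * ρ z)) := by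
  have hF : Measurable fun z => (f z : ℂ) := Complex.measurable_ofReal.comp hf
  have hFC : ∀ z, ‖(f z : ℂ)‖ ≤ C := fun z => by
    rw [Complex.norm_real, Real.norm_eq_abs]
    exact hC z
  obtain ⟨g, hg, hgb, hlim, -⟩ := V.avg_exists 0 hF (fun _ => ⟨C, fun z _ => hFC z⟩)
  have hgC : ∀ z, ‖g z‖ ≤ C := fun z => hgb (inertia z) C (fun z _ => hFC z) z le_rfl
  have hlim' : ∀ᵐ z : Conf N, Tendsto (fun T : ℝ => T⁻¹ * ∫ t in (0 : ℝ)..T, f (V.φ t z)) atTop
      (𝓝 (g z).re) := by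
    filter_upwards [hlim] with z hz
    simp only [avg_ofReal] at hz
    have h1 := (Complex.continuous_re.tendsto _).comp hz
    simpa only [Function.comp_def, Complex.ofReal_re] using h1
  refine ⟨fun z => (g z).re, Complex.measurable_re.comp hg,
    fun z => (Complex.abs_re_le_norm _).trans (hgC z), hlim', fun ρ hρ => ?_⟩
  have hρ' : Integrable fun z => (ρ z : ℂ) := hρ.ofReal
  have h2 := V.law_limit hF hFC hg hlim hρ'
  have h3 := (Complex.continuous_re.tendsto _).comp h2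
  have hgi : Integrable fun z => g z * (ρ z : ℂ) := by
    refine (hρ'.norm.const_mul C).mono' (hg.aestronglyMeasurable.mul hρ'.aestronglyMeasurable)
      (ae_of_all _ fun z => ?_)
    rw [norm_mul]
    gcongr
    exact hgC z
  have h4 : (∫ z, g z * (ρ z : ℂ)).re = ∫ z, (g z).re * ρ z := by
    rw [← Complex.reCLM_apply, ← Complex.reCLM.integral_comp_comm hgi]
    refine integral_congr_ae (ae_of_all _ fun z => ?_)
    simp
  rw [h4] at h3
  refine h3.congr fun t => ?_
  simp only [Function.comp_def]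
  have h5 : ∀ z, (f (V.φ t z) : ℂ) * (ρ z : ℂ) = ((f (V.φ t z) * ρ z : ℝ) : ℂ) := fun z => by
    push_cast
    rfl
  simp only [h5]
  rw [integral_complex_ofReal]
  exact Complex.ofReal_re _

/-- the question, with the flow instead of solutions -/
theorem isotropic_iff_isoAt {N : ℕ} (V : VFlow N) :
    Isotropic N ↔ ∀ᵐ z : Conf N, IsoAt V.φ z := by
  constructor
  · intro h
    filter_upwards [h, V.ae] with z hz hinj
    exact hz (fun t => V.φ t z) (V.motion z hinj) (V.zero z)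
  · intro h
    unfold Isotropic
    filter_upwards [h] with z hz w hw hw0 Φ hΦ
    have hwφ : ∀ t, w t = V.φ t z := fun t => by rw [V.uniq w hw t, hw0]
    simp only [hwφ]
    exact hz Φ hΦ

end

end Pool.Agent.Lib_helper25.PV
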