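import Pool.Agent.Lib_helper25.PV.Final

/-! Project PV (MP_b08f5f_an): the frames, about the origin. -/

set_option autoImplicit false

namespace Pool.Agent.Lib_helper25.PV

open MeasureTheory Filter Topology Set
open scoped ComplexConjugate

noncomputable section

/-- the conclusion of the question at `z`, with a background rotation, for functions of all
points and about the origin -/
def IsoRot {N : ℕ} (c : ℝ) (z : Conf N) : Prop :=
  ∀ w : ℝ → Conf N, RMotion c w → w 0 = z → ∀ Ψ : Conf N → ℝ, Continuous Ψ → ∃ l : ℝ, ∀ θ : ℝ,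
    Tendsto (fun T : ℝ => T⁻¹ * ∫ t in (0 : ℝ)..T,
      Ψ (fun i => Complex.exp (θ * Complex.I) * w t i)) atTop (𝓝 l)

theorem isoRot_of_good {N : ℕ} (V : VFlow N) {c : ℝ} {z : Conf N} (h : Good V.φ c z) :
    IsoRot c z := by
  intro w hw hw0 Ψ hΨ
  obtain ⟨l, hl⟩ := h Ψ hΨ
  refine ⟨l, fun θ => ?_⟩
  have h1 : ∀ t : ℝ, (fun i => Complex.exp (θ * Complex.I) * w t i) =
      tw (c * t + θ) (V.φ t z) := by
    intro t
    have h2 : (fun i => Complex.exp (θ * Complex.I) * w t i) = tw θ (w t) := rfl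
    rw [h2, hw.eq V t, hw0, tw_tw, add_comm]
  simp only [h1]
  exact hl θ

theorem VFlow.isoRot_all {N : ℕ} (V : VFlow N) :
    ∀ᵐ z : Conf N, {c : ℝ | ¬ IsoRot c z}.Countable := by
  filter_upwards [V.good_all] with z hz
  refine Set.Countable.mono (fun c hc => ?_) hz
  simp only [Set.mem_ofPred_eq] at hc ⊢
  exact fun hg => hc (isoRot_of_good V hg)

theorem VFlow.isoRot_fixed {N : ℕ} (V : VFlow N) {c : ℝ} (hc : c ≠ 0) :
    ∀ᵐ z : Conf N, IsoRot c z := by
  filter_upwards [V.good_fixed hc] with z hz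
  exact isoRot_of_good V hz

end

end Pool.Agent.Lib_helper25.PV
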